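import Mathlib
import Pool.Agent.Lib_helper90.FS.Defs

set_option autoImplicit false

/-! Block MO: moments along a homomorphism with torsion-free abelian kernel. -/

namespace Pool.Agent.H90.FS

universe u

namespace MOaux

open MonoidAlgebra

variable {κ : Type u} [Field κ] {Γ Γ' : Type u} [Group Γ] [Group Γ']

/-- The `s`-th moment. -/
noncomputable def Mo (π : Γ →* Γ') (ct : Γ → κ) (s : ℕ) :
    MonoidAlgebra κ Γ →ₗ[κ] MonoidAlgebra κ Γ' :=
  (Finsupp.lsum κ (fun x => (ct x ^ s) •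
    (MonoidAlgebra.lsingle (π x) : κ →ₗ[κ] MonoidAlgebra κ Γ'))) ∘ₗ
    (MonoidAlgebra.coeffLinearEquiv κ).toLinearMap

theorem Mo_single (π : Γ →* Γ') (ct : Γ → κ) (s : ℕ) (x : Γ) (a : κ) :
    Mo π ct s (single x a) = single (π x) (ct x ^ s * a) := by
  simp [Mo]

/-- Multiplication of the coefficients by a function. -/
noncomputable def Tw (f : Γ' → κ) : MonoidAlgebra κ Γ' →ₗ[κ] MonoidAlgebra κ Γ' :=
  (Finsupp.lsum κ (fun h => (f h) •
    (MonoidAlgebra.lsingle h : κ →ₗ[κ] MonoidAlgebra κ Γ'))) ∘ₗ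
    (MonoidAlgebra.coeffLinearEquiv κ).toLinearMap

omit [Group Γ'] in
theorem Tw_single (f : Γ' → κ) (h : Γ') (a : κ) :
    Tw f (single h a) = single h (f h * a) := by
  simp [Tw]

theorem Tw_one (w : MonoidAlgebra κ Γ') : Tw (fun _ : Γ' => (1 : κ)) w = w := by
  induction w using MonoidAlgebra.induction_linear with
  | zero => rw [map_zero]
  | add x y hx hy => rw [map_add, hx, hy]
  | single m r => rw [Tw_single, one_mul]

theorem Mo_mul_left (π : Γ →* Γ') (ct : Γ → κ) (β : Γ → Γ' → κ)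
    (hct : ∀ g x, ct (g * x) = ct x + β g (π x)) (s : ℕ) (g : Γ) (a : κ)
    (w : MonoidAlgebra κ Γ) :
    Mo π ct s (single g a * w) = ∑ j ∈ Finset.range (s + 1),
      (s.choose j : κ) • (single (π g) a * Tw (fun h => β g h ^ (s - j)) (Mo π ct j w)) := by
  induction w using MonoidAlgebra.induction_linear with
  | zero => simp
  | add x y hx hy =>
    rw [mul_add, map_add, hx, hy, ← Finset.sum_add_distrib]
    refine Finset.sum_congr rfl fun j _ => ?_
    rw [map_add, map_add, mul_add, smul_add]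
  | single x b =>
    rw [single_mul_single, Mo_single, hct, add_pow, Finset.sum_mul, map_mul]
    have h1 : (single (π g * π x) : κ → MonoidAlgebra κ Γ') =
        (singleAddHom (π g * π x) : κ →+ MonoidAlgebra κ Γ') := rfl
    rw [h1, map_sum]
    refine Finset.sum_congr rfl fun j _ => ?_
    rw [Mo_single, Tw_single, single_mul_single, smul_single, smul_eq_mul]
    change single _ _ = _
    congr 1
    ring

theorem Mo_mul_right (π : Γ →* Γ') (ct : Γ → κ) (β : Γ → Γ' → κ)
    (hct : ∀ g x, ct (x * g) = ct x + β g (π x)) (s : ℕ) (g : Γ) (a : κ)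
    (w : MonoidAlgebra κ Γ) :
    Mo π ct s (w * single g a) = ∑ j ∈ Finset.range (s + 1),
      (s.choose j : κ) • (Tw (fun h => β g h ^ (s - j)) (Mo π ct j w) * single (π g) a) := by
  induction w using MonoidAlgebra.induction_linear with
  | zero => simp
  | add x y hx hy =>
    rw [add_mul, map_add, hx, hy, ← Finset.sum_add_distrib]
    refine Finset.sum_congr rfl fun j _ => ?_
    rw [map_add, map_add, add_mul, smul_add]
  | single x b =>
    rw [single_mul_single, Mo_single, hct, add_pow, Finset.sum_mul, map_mul]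
    have h1 : (single (π x * π g) : κ → MonoidAlgebra κ Γ') =
        (singleAddHom (π x * π g) : κ →+ MonoidAlgebra κ Γ') := rfl
    rw [h1, map_sum]
    refine Finset.sum_congr rfl fun j _ => ?_
    rw [Mo_single, Tw_single, single_mul_single, smul_single, smul_eq_mul]
    change single _ _ = _
    congr 1
    ring

theorem Mo_left (π : Γ →* Γ') (ct : Γ → κ) (β : Γ → Γ' → κ)
    (hct : ∀ g x, ct (g * x) = ct x + β g (π x)) (s : ℕ) (w : MonoidAlgebra κ Γ)
    (hw : ∀ j < s, Mo π ct j w = 0) (y : MonoidAlgebra κ Γ) :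
    Mo π ct s (y * w) = mapDomainRingHom κ π y * Mo π ct s w := by
  induction y using MonoidAlgebra.induction_linear with
  | zero => rw [zero_mul, map_zero, map_zero, zero_mul]
  | add x y hx hy => rw [add_mul, map_add, hx, hy, map_add, add_mul]
  | single g a =>
    rw [Mo_mul_left π ct β hct, Finset.sum_range_succ, Finset.sum_eq_zero, zero_add,
      Nat.choose_self, Nat.cast_one, one_smul, Nat.sub_self]
    · simp only [pow_zero]
      rw [Tw_one]
      congr 1
      simp
    · intro j hj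
      rw [hw j (Finset.mem_range.1 hj), map_zero, mul_zero, smul_zero]

theorem Mo_right (π : Γ →* Γ') (ct : Γ → κ) (β : Γ → Γ' → κ)
    (hct : ∀ g x, ct (x * g) = ct x + β g (π x)) (s : ℕ) (w : MonoidAlgebra κ Γ)
    (hw : ∀ j < s, Mo π ct j w = 0) (y : MonoidAlgebra κ Γ) :
    Mo π ct s (w * y) = Mo π ct s w * mapDomainRingHom κ π y := by
  induction y using MonoidAlgebra.induction_linear with
  | zero => rw [mul_zero, map_zero, map_zero, mul_zero]
  | add x y hx hy => rw [mul_add, map_add, hx, hy, map_add, mul_add]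
  | single g a =>
    rw [Mo_mul_right π ct β hct, Finset.sum_range_succ, Finset.sum_eq_zero, zero_add,
      Nat.choose_self, Nat.cast_one, one_smul, Nat.sub_self]
    · simp only [pow_zero]
      rw [Tw_one]
      congr 1
      simp
    · intro j hj
      rw [hw j (Finset.mem_range.1 hj), map_zero, zero_mul, smul_zero]

theorem Mo_coeff [DecidableEq Γ'] (π : Γ →* Γ') (ct : Γ → κ) (s : ℕ) (w : MonoidAlgebra κ Γ)
    (h : Γ') : (Mo π ct s w).coeff h =
      ∑ x ∈ w.coeff.support, if π x = h then ct x ^ s * w.coeff x else 0 := by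
  have h1 : Mo π ct s w = ∑ x ∈ w.coeff.support, single (π x) (ct x ^ s * w.coeff x) := by
    conv_lhs => rw [← sum_coeff_single w]
    rw [Finsupp.sum, map_sum]
    exact Finset.sum_congr rfl fun x _ => Mo_single π ct s x _
  rw [h1, coeff_sum, Finsupp.finsetSum_apply]
  refine Finset.sum_congr rfl fun x _ => ?_
  rw [coeff_single, Finsupp.single_apply]

theorem Mo_ne (π : Γ →* Γ') (ct : Γ → κ) (w : MonoidAlgebra κ Γ) (hw : w ≠ 0)
    (hs : ∀ x ∈ w.coeff.support, ∀ y ∈ w.coeff.support, π x = π y → ct x = ct y → x = y) :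
    ∃ s, Mo π ct s w ≠ 0 := by
  classical
  by_contra hcon
  push Not at hcon
  obtain ⟨x₀, hx₀⟩ : w.coeff.support.Nonempty := by
    rw [Finsupp.support_nonempty_iff]
    intro h
    exact hw (coeff_eq_zero.1 h)
  have hP : ∀ P : Polynomial κ, ∑ x ∈ w.coeff.support,
      (if π x = π x₀ then P.eval (ct x) * w.coeff x else 0) = 0 := by
    intro P
    induction P using Polynomial.induction_on' with
    | add p q hp hq =>
      have h3 := congrArg₂ (fun u v : κ => u + v) hp hq
      simp only [← Finset.sum_add_distrib, add_zero] at h3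
      refine Eq.trans (Finset.sum_congr rfl fun x _ => ?_) h3
      by_cases hx : π x = π x₀
      · rw [if_pos hx, if_pos hx, if_pos hx, Polynomial.eval_add, add_mul]
      · rw [if_neg hx, if_neg hx, if_neg hx, add_zero]
    | monomial n a =>
      have h2 := congrArg (fun v => a * v) (Mo_coeff π ct n w (π x₀))
      rw [hcon n] at h2
      simp only [coeff_zero, Finsupp.coe_zero, Pi.zero_apply, mul_zero, Finset.mul_sum] at h2
      refine Eq.trans (Finset.sum_congr rfl fun x _ => ?_) h2.symm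
      by_cases hx : π x = π x₀
      · rw [if_pos hx, if_pos hx, Polynomial.eval_monomial, mul_assoc]
      · rw [if_neg hx, if_neg hx, mul_zero]
  let T : Finset Γ := w.coeff.support.filter fun y => π y = π x₀ ∧ y ≠ x₀
  have h3 := hP (∏ y ∈ T, (Polynomial.X - Polynomial.C (ct y)))
  rw [Finset.sum_eq_single_of_mem x₀ hx₀] at h3
  · rw [if_pos rfl, Polynomial.eval_prod] at h3
    rcases mul_eq_zero.1 h3 with h4 | h4
    · rw [Finset.prod_eq_zero_iff] at h4
      obtain ⟨y, hy, h5⟩ := h4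
      rw [Polynomial.eval_sub, Polynomial.eval_X, Polynomial.eval_C, sub_eq_zero] at h5
      rw [Finset.mem_filter] at hy
      exact hy.2.2 (hs y hy.1 x₀ hx₀ hy.2.1 h5.symm)
    · exact Finsupp.mem_support_iff.1 hx₀ h4
  · intro y hy hyx
    by_cases hπ : π y = π x₀
    · rw [if_pos hπ, Polynomial.eval_prod, Finset.prod_eq_zero (i := y), zero_mul]
      · exact Finset.mem_filter.2 ⟨hy, hπ, hyx⟩
      · rw [Polynomial.eval_sub, Polynomial.eval_X, Polynomial.eval_C, sub_self]
    · rw [if_neg hπ]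

/-- A functional on the kernel which does not vanish on a given finite set. -/
theorem sep [CharZero κ] (π : Γ →* Γ') (hπ : KerTFA π) (X : Finset Γ)
    (hX : ∀ x ∈ X, π x = 1 ∧ x ≠ 1) :
    ∃ c : Γ → κ, (∀ x y, π x = 1 → π y = 1 → c (x * y) = c x + c y) ∧ ∀ x ∈ X, c x ≠ 0 := by
  classical
  obtain ⟨Q, _, _, α, hα, hk⟩ := FR.tensor_data π.ker
  have hr : ∀ a : π.ker, α a = 0 → a = 1 := by
    intro a ha
    have h1 := (hk a).1 ha
    unfold FR.ratDer at h1
    rw [Subgroup.mem_comap, CommGroup.mem_torsion, isOfFinOrder_iff_pow_eq_one] at h1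
    obtain ⟨k, hk0, h2⟩ := h1
    rw [← map_pow, ← MonoidHom.mem_ker, Abelianization.ker_of] at h2
    have hbot : commutator π.ker ≤ ⊥ := by
      rw [commutator_def, Subgroup.commutator_le]
      intro x _ y _
      rw [Subgroup.mem_bot, commutatorElement_eq_one_iff_mul_comm]
      exact Subtype.ext (hπ.1 x y x.2 y.2)
    have h3 := hbot h2
    rw [Subgroup.mem_bot] at h3
    have h4 : (a : Γ) ^ k = 1 := congrArg Subtype.val h3
    exact Subtype.ext (hπ.2 a k a.2 hk0 h4)
  obtain ⟨f, hf⟩ := Module.exists_dual_forall_apply_ne_zero (K := ℚ)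
    (fun x : X => α ⟨x.1, (hX x.1 x.2).1⟩)
    (fun x h => (hX x.1 x.2).2 (congrArg Subtype.val (hr _ h)))
  refine ⟨fun x => if h : π x = 1 then ((f (α ⟨x, h⟩) : ℚ) : κ) else 0, ?_, ?_⟩
  · intro x y hx hy
    have hxy : π (x * y) = 1 := by rw [map_mul, hx, hy, one_mul]
    beta_reduce
    rw [dif_pos hx, dif_pos hy, dif_pos hxy]
    have : (⟨x * y, hxy⟩ : π.ker) = ⟨x, hx⟩ * ⟨y, hy⟩ := rfl
    rw [this, hα, map_add, Rat.cast_add]
  · intro x hx
    beta_reduce
    rw [dif_pos (hX x hx).1, Rat.cast_ne_zero]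
    exact hf ⟨x, hx⟩

/-- The data for the moments. -/
theorem ctData [CharZero κ] (π : Γ →* Γ') (hπ : KerTFA π) (X : Finset Γ) :
    ∃ (ct : Γ → κ) (β : Γ → Γ' → κ), (∀ g x, ct (g * x) = ct x + β g (π x)) ∧
      ∀ x ∈ X, ∀ y ∈ X, π x = π y → ct x = ct y → x = y := by
  classical
  obtain ⟨c, hc, hcX⟩ := sep (κ := κ) π hπ
    (((X ×ˢ X).image fun p => p.2⁻¹ * p.1).filter fun z => π z = 1 ∧ z ≠ 1)
    (fun x hx => (Finset.mem_filter.1 hx).2)
  let s : Γ' → Γ := Function.invFun π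
  have hs : ∀ x, π (s (π x)) = π x := fun x => Function.invFun_eq ⟨x, rfl⟩
  refine ⟨fun x => c ((s (π x))⁻¹ * x), fun g h => c ((s (π g * h))⁻¹ * g * s h), ?_, ?_⟩
  · intro g x
    beta_reduce
    have h1 : (s (π (g * x)))⁻¹ * (g * x) =
        (s (π g * π x))⁻¹ * g * s (π x) * ((s (π x))⁻¹ * x) := by
      rw [map_mul]
      group
    rw [h1, hc, add_comm]
    · rw [← map_mul, map_mul, map_mul, map_inv, hs, hs, map_mul, mul_assoc, inv_mul_cancel]
    · rw [map_mul, map_inv, hs, inv_mul_cancel]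
  · intro x hx y hy hxy h
    by_contra hne
    have h1 : π (y⁻¹ * x) = 1 := by rw [map_mul, map_inv, hxy, inv_mul_cancel]
    have h2 : y⁻¹ * x ≠ 1 := fun h3 => hne (inv_mul_eq_one.1 h3).symm
    have h3 := hcX (y⁻¹ * x) (Finset.mem_filter.2
      ⟨Finset.mem_image.2 ⟨(x, y), Finset.mem_product.2 ⟨hx, hy⟩, rfl⟩, h1, h2⟩)
    apply h3
    beta_reduce at h
    have h4 : (s (π x))⁻¹ * x = (s (π y))⁻¹ * y * (y⁻¹ * x) := by
      rw [hxy]
      group
    rw [h4, hc _ _ (by rw [map_mul, map_inv, hs, inv_mul_cancel]) h1] at h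
    exact left_eq_add.1 h.symm

end MOaux

/-- BLOCK MO. Moments: for a homomorphism `π` with torsion-free abelian kernel. -/
theorem mo_right {κ : Type u} [Field κ] [CharZero κ] {Γ Γ' : Type u} [Group Γ] [Group Γ']
    (π : Γ →* Γ') (hπ : KerTFA π) (w₀ : MonoidAlgebra κ Γ) (hw : w₀ ≠ 0) :
    ∃ Mo : ℕ → (MonoidAlgebra κ Γ →ₗ[κ] MonoidAlgebra κ Γ'), (∃ s, Mo s w₀ ≠ 0) ∧
      ∀ s w, (∀ j < s, Mo j w = 0) → ∀ y : MonoidAlgebra κ Γ,
        Mo s (y * w) = MonoidAlgebra.mapDomainRingHom κ π y * Mo s w := by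
  obtain ⟨ct, β, h1, h2⟩ := MOaux.ctData (κ := κ) π hπ w₀.coeff.support
  exact ⟨MOaux.Mo π ct, MOaux.Mo_ne π ct w₀ hw h2, MOaux.Mo_left π ct β h1⟩

theorem mo_left {κ : Type u} [Field κ] [CharZero κ] {Γ Γ' : Type u} [Group Γ] [Group Γ']
    (π : Γ →* Γ') (hπ : KerTFA π) (w₀ : MonoidAlgebra κ Γ) (hw : w₀ ≠ 0) :
    ∃ Mo : ℕ → (MonoidAlgebra κ Γ →ₗ[κ] MonoidAlgebra κ Γ'), (∃ s, Mo s w₀ ≠ 0) ∧
      ∀ s w, (∀ j < s, Mo j w = 0) → ∀ y : MonoidAlgebra κ Γ,
        Mo s (w * y) = Mo s w * MonoidAlgebra.mapDomainRingHom κ π y := by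
  classical
  obtain ⟨ct, β, h1, h2⟩ := MOaux.ctData (κ := κ) π hπ (w₀.coeff.support.image fun x => x⁻¹)
  refine ⟨MOaux.Mo π fun x => ct x⁻¹, MOaux.Mo_ne π _ w₀ hw ?_,
    MOaux.Mo_right π _ (fun g h => β g⁻¹ h⁻¹) ?_⟩
  · intro x hx y hy hxy h
    have h3 := h2 x⁻¹ (Finset.mem_image_of_mem _ hx) y⁻¹ (Finset.mem_image_of_mem _ hy)
      (by rw [map_inv, map_inv, hxy]) h
    exact inv_injective h3
  · intro g x
    rw [mul_inv_rev, h1, map_inv]

end Pool.Agent.H90.FS
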